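import Pool.Agent.H78.GX.Defs

/-!
# The end game for local Fourier uniformity: targets A (the Poincare inequality on a stretch)
-/

set_option autoImplicit false

open Finset

namespace Pool.Agent.H78.GX.H6.N4D

open Pool.Agent.H6.N4D Pool.Agent.H78.GX

/-- POS. Spectral positivity for finitely supported functions on the integers. -/
def T_POS : Prop := ∀ g : ℤ → ℂ, (Function.support g).Finite →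
  ∀ (ι : Type) (s : Finset ι) (c₀ : ℝ) (c : ι → ℝ) (l : ι → ℤ),
    (∀ ξ : ℝ, 0 ≤ c₀ + ∑ i ∈ s, c i * Real.cos (2 * Real.pi * ξ * l i)) →
    0 ≤ c₀ * ∑' t : ℤ, ‖g t‖ ^ 2 +
      ∑ i ∈ s, c i * ∑' t : ℤ, (g (t + l i) * (starRingEnd ℂ) (g t)).re

/-- SPC. Comparison of the quadratic forms of shifts. -/
def T_SPC : Prop := ∀ g : ℤ → ℂ, (Function.support g).Finite →
  ∀ (ι : Type) (s : Finset ι) (c : ι → ℝ) (l : ι → ℤ) (v : ℤ),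
    (∀ ξ : ℝ, 1 - Real.cos (2 * Real.pi * ξ * v) ≤
      ∑ i ∈ s, c i * (1 - Real.cos (2 * Real.pi * ξ * l i))) →
    Dg g v ≤ ∑ i ∈ s, c i * Dg g (l i)

/-- SPM. The same with signs. -/
def T_SPM : Prop := ∀ g : ℤ → ℂ, (Function.support g).Finite →
  ∀ (ι κ : Type) (s : Finset ι) (s' : Finset κ) (c₀ : ℝ) (c : ι → ℝ) (c' : κ → ℝ)
    (l : ι → ℤ) (l' : κ → ℤ),
    (∀ ξ : ℝ, c₀ ≤ ∑ i ∈ s, c i * (1 + Real.cos (2 * Real.pi * ξ * l i)) +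
      ∑ j ∈ s', c' j * (1 - Real.cos (2 * Real.pi * ξ * l' j))) →
    2 * c₀ * ∑' t : ℤ, ‖g t‖ ^ 2 ≤ ∑ i ∈ s, c i * Dp g (l i) + ∑ j ∈ s', c' j * Dg g (l' j)

/-- MER. Mertens' first theorem. -/
def T_MER : Prop := ∃ C : ℝ, ∀ x : ℝ, 1 ≤ x →
  |∑ p ∈ Pr 1 x, Real.log p / p - Real.log x| ≤ C

/-- WTS. Weights of sets of prime numbers. -/
def T_WTS : Prop :=
  (∃ X₀ : ℝ, ∀ X, X₀ ≤ X → 1 / 4 ≤ ∑ p ∈ Pr (PP X) (PP X ^ 2), 1 / (p : ℝ)) ∧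
  (∀ B : ℕ, 1 ≤ B → ∃ X₀ : ℝ, ∀ X, X₀ ≤ X →
    ∑ p ∈ Pr (PP X) (PP X ^ B), 1 / (p : ℝ) ≤ B) ∧
  (∀ K : ℕ, 1 ≤ K → ∃ X₀ : ℝ, ∀ X, X₀ ≤ X → ∀ y : ℝ, PP X ^ K ≤ y → y ≤ PP X ^ (2 * K) →
    1 / (10 * K : ℝ) ≤ ∑ p ∈ Pr y (y * PP X ^ (1 / 2 : ℝ)), 1 / (p : ℝ) ∧
    ∑ p ∈ Pr y (y * PP X ^ (1 / 2 : ℝ)), 1 / (p : ℝ) ≤ 1)

/-- WLG. The weight of `(P, P ^ (2 K)]`. -/
def T_WLG : Prop := ∃ C : ℝ, 1 ≤ C ∧ ∀ K : ℕ, 1 ≤ K → ∃ X₀ : ℝ, ∀ X, X₀ ≤ X →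
  ∑ p ∈ Pr (PP X) (PP X ^ (2 * K)), 1 / (p : ℝ) ≤ C * (1 + Real.log K)

/-- AVG. High frequencies are seen by the small shifts. -/
def T_AVG : Prop := ∀ (V : ℕ) (ξ : ℝ), 1 ≤ V → |ξ| ≤ 1 / 2 → 1 ≤ V * |ξ| →
  1 / 2 ≤ 1 / (V : ℝ) * ∑ w ∈ Icc 1 V, (1 - Real.cos (2 * Real.pi * ξ * w))

/-- SIZ. Sizes: consequences of the conditions on the parameters. -/
def T_SIZ : Prop := ∃ X₀ : ℝ, ∀ S : Par, Okx S → X₀ ≤ S.X →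
  1 ≤ S.L ∧ 100 ≤ S.P ∧ 1 / S.X ≤ S.rho ∧ S.rho ≤ 1 / 100 ∧ S.h ≤ S.rho ^ 4 ∧
  S.rho ^ 2 / 2 ≤ S.V * S.h ∧ S.V * S.h ≤ S.rho ^ 2 ∧ 1 ≤ S.V ∧
  (∀ t ∈ S.I, S.P ^ (100 * S.K) ≤ S.rho * S.x t ∧ S.x t ≤ S.X ∧
    S.x t - 1 < S.n t ∧ (S.n t : ℝ) ≤ S.x t) ∧
  (∀ p : ℕ, 1 ≤ p → |S.h * S.l p - Real.log p| ≤ S.h / 2) ∧ S.l 2 = 2 ^ S.J ∧
  0 < S.N ∧ (S.I.card : ℝ) = S.N

/-- PWP. The pointwise inequality. -/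
def T_PWP : Prop := ∀ (B : ℕ) (c X₁ : ℝ), Gap B c X₁ → ∃ C₀ X₀ : ℝ, 0 < C₀ ∧
  ∀ S : Par, Okx S → X₀ ≤ S.X → ∀ v : ℤ, |(v : ℝ)| * S.h ≤ S.L → ∀ ξ : ℝ,
    1 - Real.cos (2 * Real.pi * ξ * v) ≤
      C₀ * ∑ p ∈ Pr S.P (S.P ^ B), 1 / (p : ℝ) * (1 - Real.cos (2 * Real.pi * ξ * S.l p)) +
      4 / (S.V : ℝ) * ∑ w ∈ Icc 1 S.V, (1 - Real.cos (2 * Real.pi * ξ * w))

/-- PWM. The pointwise inequality with signs. -/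
def T_PWM : Prop := ∀ (B : ℕ) (c X₁ : ℝ), Gap B c X₁ → ∃ c₂ X₀ : ℝ, 0 < c₂ ∧
  ∀ S : Par, Okx S → X₀ ≤ S.X → ∀ ξ : ℝ,
    c₂ ≤ ∑ p ∈ Pr S.P (S.P ^ B), 1 / (p : ℝ) * (1 + Real.cos (2 * Real.pi * ξ * S.l p)) +
      1 / (S.V : ℝ) * ∑ w ∈ Icc 1 S.V, (1 - Real.cos (2 * Real.pi * ξ * w))

/-- CHI. The cut-off function. -/
def T_CHI : Prop := ∀ S : Par, Okx S → 0 < S.L →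
  (∀ t, 0 ≤ chi S t ∧ chi S t ≤ 1) ∧ (∀ t, t ∉ S.I → chi S t = 0) ∧
  (∀ t ∈ In S 1, chi S t = 1) ∧
  (∀ t l : ℤ, |chi S (t + l) - chi S t| ≤ |(l : ℝ)| * S.h / (S.K * S.L))

/-- CUT. The cut-off costs little. -/
def T_CUT : Prop := ∀ S : Par, Okx S → 0 < S.L → ∀ (M : ℝ) (f : ℤ → ℂ), (∀ t, ‖f t‖ ≤ M) →
  ∀ l : ℤ,
    Dg (fun t => chi S t * f t) l ≤
      2 * Asq S f l + 4 * M ^ 2 * (|(l : ℝ)| * S.h / (S.K * S.L)) ^ 2 * S.N ∧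
    Dp (fun t => chi S t * f t) l ≤
      2 * Asp S f l + 4 * M ^ 2 * (|(l : ℝ)| * S.h / (S.K * S.L)) ^ 2 * S.N

/-- SQR. From counting to mean squares. -/
def T_SQR : Prop := ∀ (S : Par) (M ε : ℝ) (f : ℤ → ℂ), Okx S → 0 < S.L → 0 < ε → ε ≤ 1 → 1 ≤ M →
  (∀ t, ‖f t‖ ≤ M) → Edg S ε f →
    (∀ A : Finset ℕ, A ⊆ S.Q → ∑ p ∈ A, 1 / (p : ℝ) * Asq S f (S.l p) ≤
      (ε ^ 2 * ∑ p ∈ A, 1 / (p : ℝ) + 4 * M ^ 2 * ε) * S.N) ∧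
    ∀ w : ℕ, 1 ≤ w → w ≤ S.V → Asq S f (-(w : ℤ)) ≤ 5 * M ^ 2 * ε * S.N

/-- LOC. Local constancy. -/
def T_LOC : Prop := ∀ (B : ℕ) (c X₁ : ℝ), Gap B c X₁ → ∀ M : ℝ, 1 ≤ M → ∃ C : ℝ, 1 ≤ C ∧
  ∀ K : ℕ, B ≤ K → ∃ X₀ : ℝ, ∀ S : Par, Okx S → S.K = K → X₀ ≤ S.X →
    ∀ (ε : ℝ) (f : ℤ → ℂ), 0 < ε → ε ≤ 1 → (∀ t, ‖f t‖ ≤ M) → Edg S ε f →
      ∀ v : ℤ, |(v : ℝ)| * S.h ≤ S.L →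
        ∑ t ∈ (In S 1).filter (fun t => t + v ∈ In S 1), ‖f (t + v) - f t‖ ^ 2 ≤
          C * (ε + 1 / (K : ℝ) ^ 2) * S.N

/-- PRI. A good prime number in every short block. -/
def T_PRI : Prop := ∀ M : ℝ, 1 ≤ M → ∃ C : ℝ, 1 ≤ C ∧
  ∀ K : ℕ, 1 ≤ K → ∃ X₀ : ℝ, ∀ S : Par, Okx S → S.K = K → X₀ ≤ S.X →
    ∀ (ε : ℝ) (f : ℤ → ℂ), 0 < ε → ε ≤ 1 → (∀ t, ‖f t‖ ≤ M) → Edg S ε f →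
      ∀ y : ℝ, S.P ^ K ≤ y → y * S.P ^ (1 / 2 : ℝ) ≤ S.P ^ (2 * K) →
        ∃ p ∈ Pr y (y * S.P ^ (1 / 2 : ℝ)), Asq S f (S.l p) ≤ C * (K * ε) * S.N

/-- MAC. Macroscopic steps. -/
def T_MAC : Prop := ∀ (B : ℕ) (c X₁ : ℝ), Gap B c X₁ → ∀ M : ℝ, 1 ≤ M → ∃ C : ℝ, 1 ≤ C ∧
  ∀ K : ℕ, B ≤ K → ∃ X₀ : ℝ, ∀ S : Par, Okx S → S.K = K → X₀ ≤ S.X →
    ∀ (ε : ℝ) (f : ℤ → ℂ), 0 < ε → ε ≤ 1 → (∀ t, ‖f t‖ ≤ M) → Edg S ε f →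
      ∀ v : ℕ, (v : ℝ) * S.h ≤ K * S.L / 2 →
        ∑ t ∈ (In S 3).filter (fun t => t + (v : ℤ) ∈ In S 3), ‖f (t + v) - f t‖ ^ 2 ≤
          C * (K * ε + 1 / (K : ℝ) ^ 2) * S.N

/-- CON. Constancy in the interior. -/
def T_CON : Prop := ∀ (B : ℕ) (c X₁ : ℝ), Gap B c X₁ → ∀ M : ℝ, 1 ≤ M → ∃ C : ℝ, 1 ≤ C ∧
  ∀ K : ℕ, B ≤ K → ∃ X₀ : ℝ, ∀ S : Par, Okx S → S.K = K → X₀ ≤ S.X →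
    ∀ (ε : ℝ) (f : ℤ → ℂ), 0 < ε → ε ≤ 1 → (∀ t, ‖f t‖ ≤ M) → Edg S ε f →
      ∃ z : ℂ, ‖z‖ ≤ M ∧ ∑ t ∈ In S 3, ‖f t - z‖ ^ 2 ≤
        C * (K * ε + 1 / (K : ℝ) ^ 2) * S.N

/-- PI. The Poincare inequality on the stretch: a function which is almost constant along the
edges of the prime numbers and under the small shifts is almost constant. -/
def T_PI : Prop := ∀ (B : ℕ) (c X₁ : ℝ), Gap B c X₁ → ∀ M : ℝ, 1 ≤ M → ∃ C : ℝ, 1 ≤ C ∧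
  ∀ K : ℕ, B ≤ K → ∃ X₀ : ℝ, ∀ S : Par, Okx S → S.K = K → X₀ ≤ S.X →
    ∀ (ε : ℝ) (f : ℤ → ℂ), 0 < ε → ε ≤ 1 → (∀ t, ‖f t‖ ≤ M) → Edg S ε f →
      ∃ z : ℂ, ‖z‖ ≤ M ∧ S.cnt (fun t => 1 / 4 < ‖f t - z‖) ≤
        C * (K * ε + 1 / (K : ℝ) ^ 2) * S.N

/-- FIN. No function changes its sign along the edges. -/
def T_FIN : Prop := ∀ (B : ℕ) (c X₁ : ℝ), Gap B c X₁ → ∃ (c₂ : ℝ) (K₀ : ℕ), 0 < c₂ ∧ B ≤ K₀ ∧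
  ∀ K : ℕ, K₀ ≤ K → ∃ X₀ : ℝ, ∀ S : Par, Okx S → S.K = K → X₀ ≤ S.X →
    ∀ f : ℤ → ℂ, (∀ t, ‖f t‖ = 1) →
      (∀ w : ℕ, 1 ≤ w → w ≤ S.V →
        S.cnt (fun t => t + (w : ℤ) ∈ S.I ∧ c₂ < ‖f (t + w) - f t‖) ≤ c₂ * S.N) →
      ∑ p ∈ Pr S.P (S.P ^ B), 1 / (p : ℝ) *
        S.cnt (fun t => t - S.l p ∈ S.I ∧ c₂ < ‖f (t - S.l p) + f t‖) ≤ c₂ * S.N →
      False

end Pool.Agent.H78.GX.H6.N4D
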