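import Pool.Agent.H78.GX.H6.N4D.TA

/-!
# The end game for local Fourier uniformity: targets B (the frequency is `T / x`)
-/

set_option autoImplicit false

open Finset

namespace Pool.Agent.H78.GX.H6.N4D

open Pool.Agent.H6.N4D Pool.Agent.H78.GX

/-- TWO. Two prime numbers detect small numbers modulo one. -/
def T_TWO : Prop := ∀ (p q : ℕ) (δ ζ : ℝ), p.Prime → q.Prime → p ≠ q →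
  nd (p * δ) ≤ p * ζ → nd (q * δ) ≤ q * ζ → 2 * p * q * ζ < 1 →
    nd δ ≤ ζ ∧ nd (p * δ) = p * nd δ ∧ nd (q * δ) = q * nd δ

/-- RMO. The relations are monotone in the errors. -/
def T_RMO : Prop := ∀ (S : Par) (ε ε₀ ε' ε₀' η : ℝ) (θ φ : ℤ → ℝ), Okx S → ε ≤ ε' → ε₀ ≤ ε₀' →
  (Rel S ε ε₀ η θ φ → Rel S ε' ε₀' η θ φ) ∧ (ORel S ε ε₀ θ φ → ORel S ε' ε₀' θ φ)

/-- E1P. The clipped difference is almost constant along the edges of the prime numbers. -/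
def T_E1P : Prop := ∀ (K : ℕ) (ε₁ ε' : ℝ), 1 ≤ K → 0 < ε₁ → ε₁ ≤ 1 → 0 < ε' → ε' ≤ 1 → ∃ X₀ : ℝ,
  ∀ (S : Par) (ε₀ η : ℝ) (θ φ : ℤ → ℝ), Okx S → S.K = K → X₀ ≤ S.X → 0 ≤ ε₀ →
    ε₀ ≤ ε' * ε₁ / 100 → Rel S (ε' / 4) ε₀ η θ φ → ∀ k : ℕ, k ≤ S.J →
      ∑ p ∈ S.Q, 1 / (p : ℝ) * S.cnt (fun t => t - S.l p ∈ S.I ∧
        ε' < |F1 S ε₁ θ k (t - S.l p) - F1 S ε₁ θ k t|) ≤ ε' * S.N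

/-- E1S. The clipped difference is almost constant under small shifts. -/
def T_E1S : Prop := ∀ (K : ℕ) (ε₁ ε' : ℝ), 1 ≤ K → 0 < ε₁ → ε₁ ≤ 1 → 0 < ε' → ε' ≤ 1 → ∃ X₀ : ℝ,
  ∀ (S : Par) (ε₀ η : ℝ) (θ φ : ℤ → ℝ), Okx S → S.K = K → X₀ ≤ S.X → 0 ≤ ε₀ →
    ε₀ ≤ ε' * ε₁ / 100 → Rel S (ε' / 4) ε₀ η θ φ → ∀ k : ℕ, k ≤ S.J →
      ∀ w : ℕ, 1 ≤ w → w ≤ S.V → S.cnt (fun t => t + (w : ℤ) ∈ S.I ∧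
        ε' < |F1 S ε₁ θ k (t + w) - F1 S ε₁ θ k t|) ≤ ε' * S.N

/-- E1. The clipped difference is almost constant along the edges. -/
def T_E1 : Prop := ∀ (K : ℕ) (ε₁ ε' : ℝ), 1 ≤ K → 0 < ε₁ → ε₁ ≤ 1 → 0 < ε' → ε' ≤ 1 → ∃ X₀ : ℝ,
  ∀ (S : Par) (ε₀ η : ℝ) (θ φ : ℤ → ℝ), Okx S → S.K = K → X₀ ≤ S.X → 0 ≤ ε₀ →
    ε₀ ≤ ε' * ε₁ / 100 → Rel S (ε' / 4) ε₀ η θ φ → ∀ k : ℕ, k ≤ S.J →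
      Edg S ε' (fun t => (F1 S ε₁ θ k t : ℂ))

/-- NEV. The difference along the doubling is not small. -/
def T_NEV : Prop := ∀ (K : ℕ) (ε₁ η : ℝ), 1 ≤ K → 0 < ε₁ → ε₁ ≤ 1 → 0 < η → ∃ X₀ : ℝ,
  ∀ (S : Par) (ε₀ : ℝ) (θ φ : ℤ → ℝ), Okx S → S.K = K → X₀ ≤ S.X → 0 ≤ ε₀ → ε₀ ≤ 1 →
    Rel S (1 / 10) ε₀ η θ φ → S.N / 4 < S.cnt (fun t => 8 < y1 S ε₁ θ S.J t)

/-- PH1. The first scale where the differences are not small. -/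
def T_PH1 : Prop := ∀ (K : ℕ) (ε₁ η : ℝ), 1 ≤ K → 0 < ε₁ → ε₁ ≤ 1 → 0 < η → ∃ X₀ : ℝ,
  ∀ (S : Par) (ε₀ κ : ℝ) (θ φ : ℤ → ℝ), Okx S → S.K = K → X₀ ≤ S.X → 0 ≤ ε₀ → ε₀ ≤ ε₁ / 4 →
    0 ≤ κ → κ ≤ 1 / 100 → Rel S (1 / 100) ε₀ η θ φ →
    (∀ k : ℕ, k ≤ S.J → ∃ z : ℂ, S.cnt (fun t => 1 / 4 < ‖(F1 S ε₁ θ k t : ℂ) - z‖) ≤ κ * S.N) →
    ∃ (k : ℕ) (s s' : ℝ), k < S.J ∧ S.rho / 8 ≤ 2 ^ k * S.h ∧ 3 ≤ s ∧ s ≤ 7 ∧ 7 < s' ∧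
      S.cnt (fun t => 1 / 4 < |F1 S ε₁ θ k t - s|) ≤ κ * S.N ∧
      S.cnt (fun t => 1 / 4 < |F1 S ε₁ θ (k + 1) t - s'|) ≤ κ * S.N

open Classical in
/-- the sign with which `θ (t + 2 ^ k)` is close to `θ t` -/
noncomputable def sg (θ : ℤ → ℝ) (k : ℕ) (t : ℤ) : ℝ :=
  if nd (θ (t + 2 ^ k) - θ t) ≤ nd (θ (t + 2 ^ k) + θ t) then 1 else -1

/-- the signed normalized difference -/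
noncomputable def ys (S : Par) (ε₁ : ℝ) (θ : ℤ → ℝ) (k : ℕ) (t : ℤ) : ℝ :=
  S.rho * S.x t / ε₁ * sr (θ (t + 2 ^ k) - sg θ k t * θ t)

open Classical in
/-- the orientation -/
noncomputable def oo (S : Par) (ε₁ : ℝ) (θ : ℤ → ℝ) (k : ℕ) (t : ℤ) : ℝ :=
  if 0 ≤ ys S ε₁ θ k t then - sg θ k t else sg θ k t

/-- ORA. The oriented differences are all negative. -/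
def T_ORA : Prop := ∀ (K : ℕ) (ε : ℝ), 1 ≤ K → 0 < ε → ∃ X₀ : ℝ,
  ∀ (S : Par) (ε₁ κ s s' : ℝ) (k : ℕ) (θ : ℤ → ℝ), Okx S → S.K = K → X₀ ≤ S.X → 0 < ε₁ →
    ε₁ ≤ 1 → 0 ≤ κ → k < S.J → 3 ≤ s → s ≤ 7 → 7 < s' →
    S.cnt (fun t => 1 / 4 < |F1 S ε₁ θ k t - s|) ≤ κ * S.N →
    S.cnt (fun t => 1 / 4 < |F1 S ε₁ θ (k + 1) t - s'|) ≤ κ * S.N →
    HH S (4 * κ + ε) ε₁ (fun t => oo S ε₁ θ k t * θ t) k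
      (s * ε₁ / (S.rho * (1 - Real.exp (-(2 ^ k * S.h)))))

/-- ORE. The orientation is compatible with one edge. -/
def T_ORE : Prop := ∀ (K : ℕ) (ε₁ η : ℝ), 1 ≤ K → 0 < ε₁ → ε₁ ≤ 1 → 0 < η → ∃ X₀ : ℝ,
  ∀ (S : Par) (ε₀ s : ℝ) (k : ℕ) (θ φ : ℤ → ℝ), Okx S → S.K = K → X₀ ≤ S.X → 0 ≤ ε₀ →
    ε₀ ≤ ε₁ / 100 → k < S.J → 3 ≤ s → s ≤ 7 →
    (∀ (p : ℕ) (t : ℤ), p ∈ S.Q ∨ p = 2 → t ∈ S.I → t - S.l p ∈ S.I → t + 2 ^ k ∈ S.I →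
      t - S.l p + 2 ^ k ∈ S.I → EdR S ε₀ θ φ p t → EdR S ε₀ θ φ p (t + 2 ^ k) →
      |F1 S ε₁ θ k t - s| ≤ 1 / 4 → |F1 S ε₁ θ k (t - S.l p) - s| ≤ 1 / 4 →
      η ≤ nd (2 * θ (t - S.l p)) →
      OEd S ε₀ (fun t => oo S ε₁ θ k t * θ t) (fun t => oo S ε₁ θ k t * φ t) p t) ∧
    (∀ (w : ℕ) (t : ℤ), w ≤ S.V → t ∈ S.I → t + (w : ℤ) ∈ S.I → t + 2 ^ k ∈ S.I →
      t + (w : ℤ) + 2 ^ k ∈ S.I → ShR S ε₀ θ φ t w → ShR S ε₀ θ φ (t + 2 ^ k) w →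
      |F1 S ε₁ θ k t - s| ≤ 1 / 4 → |F1 S ε₁ θ k (t + w) - s| ≤ 1 / 4 →
      η ≤ nd (2 * θ (t + w)) →
      OSh S ε₀ (fun t => oo S ε₁ θ k t * θ t) (fun t => oo S ε₁ θ k t * φ t) t w)

/-- ORI. The oriented relations. -/
def T_ORI : Prop := ∀ (K : ℕ) (ε₁ η ε : ℝ), 1 ≤ K → 0 < ε₁ → ε₁ ≤ 1 → 0 < η → 0 < ε →
  ∃ X₀ : ℝ, ∀ (S : Par) (ε₀ κ s : ℝ) (k : ℕ) (θ φ : ℤ → ℝ), Okx S → S.K = K → X₀ ≤ S.X →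
    0 ≤ ε₀ → ε₀ ≤ ε₁ / 100 → 0 ≤ κ → k < S.J → 3 ≤ s → s ≤ 7 →
    Rel S ε ε₀ η θ φ → S.cnt (fun t => 1 / 4 < |F1 S ε₁ θ k t - s|) ≤ κ * S.N →
    ORel S (10 * (1 + ∑ p ∈ S.Q, 1 / (p : ℝ)) * (κ + ε)) ε₀
      (fun t => oo S ε₁ θ k t * θ t) (fun t => oo S ε₁ θ k t * φ t)

/-- E2P. The residual function is almost constant along the edges of the prime numbers. -/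
def T_E2P : Prop := ∀ (K : ℕ) (ε₁ ε' : ℝ), 1 ≤ K → 0 < ε₁ → ε₁ ≤ 1 → 0 < ε' → ε' ≤ 1 → ∃ X₀ : ℝ,
  ∀ (S : Par) (ε₀ T : ℝ) (θ φ : ℤ → ℝ), Okx S → S.K = K → X₀ ≤ S.X → 0 ≤ ε₀ →
    ε₀ ≤ ε' * ε₁ / 100 → ORel S (ε' / 4) ε₀ θ φ → |T| ≤ 200 * ε₁ / S.rho ^ 2 →
    ∀ k : ℕ, k ≤ S.J → ∑ p ∈ S.Q, 1 / (p : ℝ) * S.cnt (fun t => t - S.l p ∈ S.I ∧
        ε' < ‖F2 S ε₁ θ k T (t - S.l p) - F2 S ε₁ θ k T t‖) ≤ ε' * S.N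

/-- E2S. The residual function is almost constant under small shifts. -/
def T_E2S : Prop := ∀ (K : ℕ) (ε₁ ε' : ℝ), 1 ≤ K → 0 < ε₁ → ε₁ ≤ 1 → 0 < ε' → ε' ≤ 1 → ∃ X₀ : ℝ,
  ∀ (S : Par) (ε₀ T : ℝ) (θ φ : ℤ → ℝ), Okx S → S.K = K → X₀ ≤ S.X → 0 ≤ ε₀ →
    ε₀ ≤ ε' * ε₁ / 100 → ORel S (ε' / 4) ε₀ θ φ → |T| ≤ 200 * ε₁ / S.rho ^ 2 →
    ∀ k : ℕ, k ≤ S.J → ∀ w : ℕ, 1 ≤ w → w ≤ S.V → S.cnt (fun t => t + (w : ℤ) ∈ S.I ∧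
        ε' < ‖F2 S ε₁ θ k T (t + w) - F2 S ε₁ θ k T t‖) ≤ ε' * S.N

/-- STP. One step: from `2 ^ k` to `2 ^ (k + 1)`. -/
def T_STP : Prop := ∀ K : ℕ, 1 ≤ K → ∃ X₀ : ℝ, ∀ (S : Par) (ε₁ κ κ' T : ℝ) (k : ℕ) (θ : ℤ → ℝ),
  Okx S → S.K = K → X₀ ≤ S.X → 0 < ε₁ → ε₁ ≤ 1 → κ ≤ 1 / 8 → κ' ≤ 1 / 8 → k < S.J →
    HH S κ ε₁ θ k T →
    (∃ z : ℂ, S.cnt (fun t => 1 / 4 < ‖F2 S ε₁ θ (k + 1) T t - z‖) ≤ κ' * S.N) →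
    ∃ T' : ℝ, |T' - T| ≤ 4 * ε₁ / (S.rho * (2 ^ k * S.h)) ∧
      HH S (κ' + 1 / S.L) ε₁ θ (k + 1) T'

/-- PH2. The second phase. -/
def T_PH2 : Prop := ∀ K : ℕ, 1 ≤ K → ∃ X₀ : ℝ, ∀ (S : Par) (ε₁ κ κ' T : ℝ) (k : ℕ) (θ : ℤ → ℝ),
  Okx S → S.K = K → X₀ ≤ S.X → 0 < ε₁ → ε₁ ≤ 1 → κ ≤ 1 / 8 → κ' ≤ 1 / 16 → k < S.J →
    S.rho / 8 ≤ 2 ^ k * S.h → |T| ≤ 112 * ε₁ / S.rho ^ 2 → HH S κ ε₁ θ k T →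
    (∀ (j : ℕ) (T' : ℝ), j ≤ S.J → |T'| ≤ 200 * ε₁ / S.rho ^ 2 →
      ∃ z : ℂ, S.cnt (fun t => 1 / 4 < ‖F2 S ε₁ θ j T' t - z‖) ≤ κ' * S.N) →
    ∃ T' : ℝ, |T'| ≤ 200 * ε₁ / S.rho ^ 2 ∧ HH S (κ' + 1 / S.L) ε₁ θ S.J T'

/-- TTX. The frequency is `T / x`. -/
def T_TTX : Prop := ∀ K : ℕ, 1 ≤ K → ∃ X₀ : ℝ,
  ∀ (S : Par) (ε ε₀ ε₁ κ T : ℝ) (θ φ : ℤ → ℝ), Okx S → S.K = K → X₀ ≤ S.X → 0 ≤ ε₀ →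
    ε₀ ≤ ε₁ → HH S κ ε₁ θ S.J T → ORel S ε ε₀ θ φ →
    S.cnt (fun t => ¬ nd (θ t - T / S.x t) ≤ 3 * ε₁ / (S.rho * S.x t)) ≤ (κ + ε) * S.N

/-- the final function -/
noncomputable def ff (S : Par) (φ : ℤ → ℝ) (T : ℝ) (t : ℤ) : ℂ :=
  ee (φ t - T * Real.log (S.n t) + T * (S.h * t))

/-- PSS. The final function under small shifts. -/
def T_PSS : Prop := ∀ (K : ℕ) (ζ : ℝ), 1 ≤ K → 0 < ζ → ∃ X₀ : ℝ,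
  ∀ (S : Par) (ε ε₀ ε₁ κ T : ℝ) (θ φ : ℤ → ℝ), Okx S → S.K = K → X₀ ≤ S.X → 0 ≤ ε₀ →
    ε₀ ≤ ζ / 100 → 0 < ε₁ → ε₁ ≤ ζ / 5000 → ε₁ ≤ 1 → |T| ≤ 200 * ε₁ / S.rho ^ 2 →
    ORel S ε ε₀ θ φ →
    S.cnt (fun t => ¬ nd (θ t - T / S.x t) ≤ 3 * ε₁ / (S.rho * S.x t)) ≤ κ * S.N →
    ∀ w : ℕ, 1 ≤ w → w ≤ S.V →
      S.cnt (fun t => t + (w : ℤ) ∈ S.I ∧ ζ < ‖ff S φ T (t + w) - ff S φ T t‖) ≤ (κ + ε) * S.N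

/-- PSP. The final function along the edges of the prime numbers. -/
def T_PSP : Prop := ∀ (K B : ℕ) (ζ : ℝ), 1 ≤ K → 1 ≤ B → B ≤ K → 0 < ζ → ∃ X₀ : ℝ,
  ∀ (S : Par) (ε ε₀ ε₁ κ T : ℝ) (θ φ : ℤ → ℝ), Okx S → S.K = K → X₀ ≤ S.X → 0 ≤ ε₀ →
    ε₀ ≤ ζ / 100 → 0 < ε₁ → ε₁ ≤ ζ / 5000 → ε₁ ≤ 1 → |T| ≤ 200 * ε₁ / S.rho ^ 2 → 0 ≤ κ →
    ORel S ε ε₀ θ φ →
    S.cnt (fun t => ¬ nd (θ t - T / S.x t) ≤ 3 * ε₁ / (S.rho * S.x t)) ≤ κ * S.N →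
    ∑ p ∈ Pr S.P (S.P ^ B), 1 / (p : ℝ) *
      S.cnt (fun t => t - S.l p ∈ S.I ∧ ζ < ‖ff S φ T (t - S.l p) + ff S φ T t‖) ≤
        (B * κ + ε) * S.N

/-- REL. The relations are impossible. -/
def T_REL : Prop := ∀ (B : ℕ) (c X₁ : ℝ), Gap B c X₁ → ∃ (ε ε₀ : ℝ) (K : ℕ), 0 < ε ∧ 0 < ε₀ ∧
  1 ≤ K ∧ ∀ η : ℝ, 0 < η → ∃ X₀ : ℝ, ∀ (S : Par) (θ φ : ℤ → ℝ), Okx S → S.K = K → X₀ ≤ S.X →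
    ¬ Rel S ε ε₀ η θ φ

end Pool.Agent.H78.GX.H6.N4D
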