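import Pool.Agent.H78.GX.H6.N4D.TB

/-!
# The end game for local Fourier uniformity: targets C (from windows to relations)
-/

set_option autoImplicit false

open Finset

namespace Pool.Agent.H78.GX.H6.N4D

open Pool.Agent.H6.N4D Pool.Agent.H78.GX

/-- CPA. The sign of the cosine is a parity. -/
def T_CPA : Prop := ∀ y : ℝ, Real.cos (2 * Real.pi * y) ≠ 0 →
  (0 < Real.cos (2 * Real.pi * y) ↔ Even ⌊2 * y + 1 / 2⌋)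

/-- SCN. The number of the sign changes of a rotation. -/
def T_SCN : Prop := ∀ (γ μ : ℝ) (M : ℕ),
  |(((range M).filter fun j : ℕ =>
    Odd (⌊2 * (γ * (j + 1) + μ) + 1 / 2⌋ - ⌊2 * (γ * j + μ) + 1 / 2⌋)).card : ℝ) -
      2 * M * nd γ| ≤ 1

/-- the number of the `j ≤ N` at which the two waves do not have the same sign -/
noncomputable def er (N : ℕ) (α β α' β' : ℝ) : ℕ :=
  ((Icc 1 N).filter fun j : ℕ => Real.cos (2 * Real.pi * (α * j + β)) *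
    Real.cos (2 * Real.pi * (α' * j + β')) ≤ 0).card

/-- SQQ. The multiples of the two frequencies have the same distance to the integers. -/
def T_SQQ : Prop := ∀ (α β α' β' e : ℝ) (N q : ℕ), 1 ≤ q → 2 * q ≤ N →
  (er N α β α' β' : ℝ) ≤ e * N → |nd (q * α) - nd (q * α')| ≤ 2 * e + 2 * q / N

/-- FRQ. Then the frequencies are close, up to the sign. -/
def T_FRQ : Prop := ∀ (α α' ζ : ℝ) (m : ℕ), 0 < ζ → 12 * ζ < nd (2 * α') → 1 ≤ m →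
  (∀ q : ℕ, 1 ≤ q → q ≤ m → |nd (q * α) - nd (q * α')| ≤ ζ) →
  ∃ (σ : ℝ) (k : ℤ), (σ = 1 ∨ σ = -1) ∧ |α - σ * α' - k| ≤ 2 * ζ / m

open Classical in
/-- EQD. Generic rotations visit all arcs. -/
def T_EQD : Prop := ∀ w : ℝ, 0 < w → w ≤ 1 / 4 → ∃ Q : ℕ, ∀ η : ℝ, 0 < η → ∃ N₀ : ℕ,
  ∀ N : ℕ, N₀ ≤ N → ∀ α β y : ℝ, (∀ q : ℕ, 1 ≤ q → q ≤ Q → η ≤ nd (q * α)) →
    w * N ≤ (((Icc 1 N).filter fun j : ℕ =>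
      ∃ k : ℤ, y ≤ α * j + β + k ∧ α * j + β + k ≤ y + 2 * w).card : ℝ)

/-- RFN. Refinement. -/
def T_RFN : Prop := ∀ ε₀ : ℝ, 0 < ε₀ → ε₀ ≤ 1 / 4 → ∃ Q : ℕ, ∀ η : ℝ, 0 < η →
  ∃ (e : ℝ) (N₀ : ℕ), 0 < e ∧ ∀ N : ℕ, N₀ ≤ N → ∀ α' β β' γ : ℝ,
    (∀ q : ℕ, 1 ≤ q → q ≤ Q → η ≤ nd (q * α')) → |γ| ≤ 16 / N →
    (er N (α' + γ) β α' β' : ℝ) ≤ e * N → |γ| ≤ ε₀ / N ∧ nd (β - β') ≤ ε₀

/-- RIG. Rigidity of the signs of generic waves. -/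
def T_RIG : Prop := ∀ ε₀ : ℝ, 0 < ε₀ → ∃ Q : ℕ, ∀ η : ℝ, 0 < η → ∃ (e : ℝ) (N₀ : ℕ), 0 < e ∧
  ∀ N : ℕ, N₀ ≤ N → ∀ α β α' β' : ℝ, (∀ q : ℕ, 1 ≤ q → q ≤ Q → η ≤ nd (q * α')) →
    (er N α β α' β' : ℝ) ≤ e * N →
    ∃ τ : ℝ, (τ = 1 ∨ τ = -1) ∧ nd (α' - τ * α) ≤ ε₀ / N ∧ nd (β' - τ * β) ≤ ε₀

open Classical in
/-- SBW. Most sub-windows of a window inherit the structure. -/
def T_SBW : Prop := ∀ (lam : ℕ → ℝ) (Q : ℕ) (η e e₁ : ℝ) (Y n H Z₀ : ℕ) (Z : ℕ → ℕ),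
  0 ≤ e → 0 < e₁ → 1 ≤ Z₀ → H + 2 * Z₀ ≤ Y →
  (∀ m ∈ Ioc n (n + H), Z₀ ≤ Z m ∧ Z m ≤ 2 * Z₀) → GW lam Q η e Y n →
    (((Ioc n (n + H)).filter fun m => ¬ GW lam Q η e₁ (Z m) m).card : ℝ) ≤ 2 * (e / e₁) * Y

open Classical in
/-- SBL. The logarithmic sum over the bad sub-windows. -/
def T_SBL : Prop := ∀ (lam : ℕ → ℝ) (Q : ℕ) (η e e₁ r : ℝ) (A B Y : ℕ),
  0 ≤ e → 0 < e₁ → 0 < r → r ≤ 1 → 4 ≤ Y → 4 * Y ≤ A → A ≤ B → 8 ≤ r * ((A : ℝ) - Y) →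
  4 * (r * ((B : ℝ) + Y)) ≤ Y →
    ∑ n ∈ (Ioc A B).filter (fun n : ℕ => ¬ GW lam Q η e₁ ⌊r * n⌋₊ n), 1 / (n : ℝ) ≤
      ∑ n ∈ (Ioc (A - Y) B).filter (fun n : ℕ => ¬ GW lam Q η e Y n), 1 / (n : ℝ) +
        12 * (e / e₁) * (1 + Real.log ((B : ℝ) / A))

open Classical in
/-- CTN. From integers to the logarithmic scale. -/
def T_CTN : Prop := ∀ (S : Par) (E : ℕ → Prop), Okx S → 2 ≤ S.x S.a →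
  S.cnt (fun t => E (S.n t)) ≤
    1 / S.h * ∑ n ∈ (Icc (S.n S.a) (S.n S.b)).filter E, 1 / (n : ℝ) + 2 * S.X

open Classical in
/-- STR. The choice of the stretch. -/
def T_STR : Prop := ∀ K : ℕ, 1 ≤ K → ∃ X₀ : ℝ, ∀ (X δ : ℝ) (Y : ℕ) (E : ℕ → Prop), X₀ ≤ X →
  0 ≤ δ → Real.exp (Real.log X ^ (24 / 25 : ℝ)) ≤ Y → (Y : ℝ) ≤ X ^ (1 / 4 : ℝ) →
  ∑ n ∈ (Icc 1 ⌊X⌋₊).filter E, 1 / (n : ℝ) ≤ δ * Real.log X →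
  ∃ S : Par, Okx S ∧ S.K = K ∧ S.X = X ∧ S.rho = Y / (8 * S.x S.b) ∧
    X ^ (1 / 2 : ℝ) ≤ S.x S.a ∧
    ∑ n ∈ (Icc ⌊S.x S.a / 2⌋₊ (S.n S.b)).filter E, 1 / (n : ℝ) ≤ 100 * δ * (S.N * S.h)

/-- MOM. The second moment. -/
def T_MOM : Prop := ∀ (A E : Finset ℕ) (R Y n : ℕ), (∀ p ∈ A, p.Prime ∧ p ≤ R) →
  E ⊆ Ioc n (n + Y) →
  ((∑ p ∈ A, (E.filter fun m => p ∣ m).card : ℕ) : ℝ) ^ 2 ≤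
    E.card * (Y * ((∑ p ∈ A, 1 / (p : ℝ)) ^ 2 + ∑ p ∈ A, 1 / (p : ℝ)) + 2 * (R : ℝ) ^ 2)

/-- SHW. Overlapping windows. -/
def T_SHW : Prop := ∀ ε₀ : ℝ, 0 < ε₀ → ∃ Q : ℕ, ∀ η : ℝ, 0 < η → ∃ e X₀ : ℝ, 0 < e ∧
  ∀ (S : Par) (lam : ℕ → ℝ) (t : ℤ) (w : ℕ) (θ φ θ' φ' : ℝ), Okx S → X₀ ≤ S.X → Lio lam →
    t ∈ S.I → t + (w : ℤ) ∈ S.I → (w : ℝ) * S.h ≤ S.rho / 4 →
    GD lam Q η e ⌊S.rho * S.n t⌋₊ (S.n t) θ φ →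
    GD lam Q η e ⌊S.rho * S.n (t + w)⌋₊ (S.n (t + w)) θ' φ' →
    ∃ τ : ℝ, (τ = 1 ∨ τ = -1) ∧ nd (θ' - τ * θ) ≤ ε₀ / (S.rho * S.x t) ∧
      nd (φ' - τ * (φ + θ * ((S.n (t + w) : ℝ) - S.n t))) ≤ ε₀

open Classical in
/-- the places in the window of `t` which are divisible by `p` and not explained -/
noncomputable def erp (S : Par) (lam : ℕ → ℝ) (t : ℤ) (p : ℕ) (θ φ : ℝ) : ℕ :=
  ((Ioc (S.n t) (S.n t + ⌊S.rho * S.n t⌋₊)).filter fun m : ℕ => p ∣ m ∧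
    lam m * Real.cos (2 * Real.pi * (θ * ((m : ℝ) - S.n t) + φ)) ≤ 0).card

/-- EDW. Edges between windows. -/
def T_EDW : Prop := ∀ (K : ℕ) (ε₀ : ℝ), 1 ≤ K → 0 < ε₀ → ∃ Q : ℕ, ∀ η : ℝ, 0 < η →
  ∃ e X₀ : ℝ, 0 < e ∧
  ∀ (S : Par) (lam : ℕ → ℝ) (t : ℤ) (p : ℕ) (θ φ θ' φ' : ℝ), Okx S → S.K = K → X₀ ≤ S.X →
    Lio lam → t ∈ S.I → t - S.l p ∈ S.I → (p ∈ S.Q ∨ p = 2) →
    (erp S lam t p θ φ : ℝ) ≤ e * (S.rho * S.x t) / p →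
    GD lam Q η e ⌊S.rho * S.n (t - S.l p)⌋₊ (S.n (t - S.l p)) θ' φ' →
    ∃ τ : ℝ, (τ = 1 ∨ τ = -1) ∧ nd (θ' - τ * (p * θ)) ≤ p * ε₀ / (S.rho * S.x t) ∧
      nd (φ' - τ * (φ + θ * (p * (S.n (t - S.l p) : ℝ) - S.n t) + 1 / 2)) ≤ ε₀

open Classical in
/-- WIN. From the structure on windows to the relations. -/
def T_WIN : Prop := ∀ (K : ℕ) (ε ε₀ : ℝ), 1 ≤ K → 0 < ε → 0 < ε₀ → ∃ (δ : ℝ) (Q : ℕ), 0 < δ ∧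
  ∀ η : ℝ, 0 < η → ∃ e X₀ : ℝ, 0 < e ∧ ∀ (X : ℝ) (Y : ℕ) (lam : ℕ → ℝ), X₀ ≤ X →
    Real.exp (Real.log X ^ (24 / 25 : ℝ)) ≤ Y → (Y : ℝ) ≤ X ^ (1 / 4 : ℝ) → Lio lam →
    ∑ n ∈ (Icc 1 ⌊X⌋₊).filter (fun n : ℕ => ¬ GW lam Q η e Y n), 1 / (n : ℝ) ≤
      δ * Real.log X →
    ∃ (S : Par) (θ φ : ℤ → ℝ), Okx S ∧ S.K = K ∧ S.X = X ∧ Rel S ε ε₀ η θ φ

open Classical in
/-- END. The end game. There is no structure on windows of length `exp ((log X) ^ (24/25))`. -/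
def T_END : Prop := ∃ (δ : ℝ) (Q : ℕ), 0 < δ ∧ ∀ η : ℝ, 0 < η → ∃ e X₀ : ℝ, 0 < e ∧
  ∀ (X : ℝ) (Y : ℕ) (lam : ℕ → ℝ), X₀ ≤ X →
    Real.exp (Real.log X ^ (24 / 25 : ℝ)) ≤ Y → (Y : ℝ) ≤ X ^ (1 / 4 : ℝ) → Lio lam →
    ¬ ∑ n ∈ (Icc 1 ⌊X⌋₊).filter (fun n : ℕ => ¬ GW lam Q η e Y n), 1 / (n : ℝ) ≤
      δ * Real.log X

end Pool.Agent.H78.GX.H6.N4D
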