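import Pool.Agent.H78.GX.H6.N4D.TC
import Pool.Agent.H83.VU.TargetsG

/-!
# The end game for local Fourier uniformity: the spectral gap
-/

set_option autoImplicit false

namespace Pool.Agent.H78.GX.H6.N4D

open Pool.Agent.H6.N4D Pool.Agent.H78.GX

/-- GPC. The gap in the form used here. -/
def T_GPC : Prop := Pool.Agent.H83.VU.T_GAP → ∃ (B : ℕ) (c X₁ : ℝ), Gap B c X₁

end Pool.Agent.H78.GX.H6.N4D
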